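import Pool.Agent.H54.NA.Wed
import Mathlib.LinearAlgebra.GeneralLinearGroup.AlgEquiv
import Mathlib.Algebra.Central.End

/-!
# H54 NA, Alg: groups which normalise a proper algebra, over an algebraically closed field
-/

set_option autoImplicit false

namespace Pool.Agent.H54.NA

open Pool.Agent.H98.FJ Module

variable {K V : Type} [Field K] [AddCommGroup V] [Module K V]

/-- conjugation as an automorphism -/
def cE (K W : Type) [Field K] [AddCommGroup W] [Module K W] : GV K W →* (Module.End K W ≃ₐ[K] Module.End K W) where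
  toFun g := (LinearMap.GeneralLinearGroup.generalLinearEquiv K W g).conjAlgEquiv K
  map_one' := by
    ext x w
    rfl
  map_mul' g h := by
    ext x w
    rfl

theorem cE_apply {W : Type} [AddCommGroup W] [Module K W] (g : GV K W) (x : Module.End K W) :
    cE K W g x = g.val * x * (g⁻¹).val := rfl

theorem cE_surj (W : Type) [AddCommGroup W] [Module K W] : Function.Surjective (cE K W) := by
  intro f
  obtain ⟨T, hT⟩ := f.eq_linearEquivConjAlgEquiv
  refine ⟨(LinearMap.GeneralLinearGroup.generalLinearEquiv K W).symm T, ?_⟩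
  show (LinearMap.GeneralLinearGroup.generalLinearEquiv K W
    ((LinearMap.GeneralLinearGroup.generalLinearEquiv K W).symm T)).conjAlgEquiv K = f
  rw [MulEquiv.apply_symm_apply, hT]

theorem cE_ker (W : Type) [AddCommGroup W] [Module K W] [FiniteDimensional K W] :
    (cE K W).ker = Subgroup.center (GV K W) := by
  ext g
  rw [MonoidHom.mem_ker]
  constructor
  · intro h
    rw [Subgroup.mem_center_iff]
    intro x
    apply Units.ext
    have h1 : g.val * x.val * (g⁻¹).val = x.val := by
      rw [← cE_apply, h]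
      rfl
    rw [Units.val_mul, Units.val_mul]
    calc x.val * g.val = g.val * x.val * (g⁻¹).val * g.val := by rw [h1]
      _ = g.val * x.val := by rw [mul_assoc, Units.inv_mul, mul_one]
  · intro h
    obtain ⟨c, hc⟩ := scalar_of_mk (mk_eq_one_iff.2 h)
    ext1 x
    rw [cE_apply]
    show g.val * x * (g⁻¹).val = x
    rw [hc, Algebra.commutes, mul_assoc, ← hc, Units.mul_inv, mul_one]

/-- the automorphism group of the algebra of endomorphisms -/
theorem aut_mem {C : (G : Type) → [Group G] → Prop} (hC : Inherits C) (W : Type) [AddCommGroup W] [Module K W]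
    [FiniteDimensional K W] (h : C (PV K W)) : C (Module.End K W ≃ₐ[K] Module.End K W) :=
  hC.iso _ _ ((QuotientGroup.quotientMulEquivOfEq (cE_ker W).symm).trans
    (QuotientGroup.quotientKerEquivOfSurjective (cE K W) (cE_surj W))) h

/-- the automorphism group of an algebra which is isomorphic to a matrix algebra -/
theorem aut_mem_of_equiv {C : (G : Type) → [Group G] → Prop} (hC : Inherits C) {A : Type} [Ring A] [Algebra K A] {s : ℕ}
    (e : A ≃ₐ[K] Matrix (Fin s) (Fin s) K) (h : C (PV K (Fin s → K))) : C (A ≃ₐ[K] A) := by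
  let e' : A ≃ₐ[K] Module.End K (Fin s → K) := e.trans Matrix.toLinAlgEquiv'
  exact hC.iso _ _ (AlgEquiv.autCongr e').symm (aut_mem hC (Fin s → K) h)

/-- conjugation on a normalised algebra -/
def cAut {G : Type} [Group G] {j : G →* PV K V} {A : Subalgebra K (Module.End K V)} (h : Nm j A) : pb j →* (A ≃ₐ[K] A) where
  toFun x := AlgEquiv.ofAlgHom (cA h x) (cA h x⁻¹)
    (AlgHom.ext fun a => by
      rw [AlgHom.comp_apply, ← cA_mul, mul_inv_cancel, cA_one, AlgHom.id_apply])
    (AlgHom.ext fun a => by
      rw [AlgHom.comp_apply, ← cA_mul, inv_mul_cancel, cA_one, AlgHom.id_apply])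
  map_one' := AlgEquiv.ext fun a => cA_one h a
  map_mul' x y := AlgEquiv.ext fun a => cA_mul h x y a

theorem cAut_apply {G : Type} [Group G] {j : G →* PV K V} {A : Subalgebra K (Module.End K V)} (h : Nm j A) (x : pb j)
    (a : A) : cAut h x a = cA h x a := rfl

theorem cAut_eq_one {G : Type} [Group G] {j : G →* PV K V} {A : Subalgebra K (Module.End K V)} (h : Nm j A) {x : pb j}
    (hx : cAut h x = 1) {a : Module.End K V} (ha : a ∈ A) : a * x.1.2.val = x.1.2.val * a := by
  have h1 : cA h x ⟨a, ha⟩ = ⟨a, ha⟩ := by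
    rw [← cAut_apply, hx]
    rfl
  have h2 : x.1.2.val * a * (x.1.2⁻¹).val = a := congrArg Subtype.val h1
  calc a * x.1.2.val = x.1.2.val * a * (x.1.2⁻¹).val * x.1.2.val := by rw [h2]
    _ = x.1.2.val * a := by rw [mul_assoc, Units.inv_mul, mul_one]

theorem cAut_scalar {G : Type} [Group G] [FiniteDimensional K V] {j : G →* PV K V} {A : Subalgebra K (Module.End K V)}
    (h : Nm j A) {x : pb j} (hx : x.1.1 = 1) : cAut h x = 1 := by
  obtain ⟨c, hc⟩ := scalar_of_mk (pb_one hx)
  ext1 a
  apply Subtype.ext
  show x.1.2.val * a.1 * (x.1.2⁻¹).val = a.1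
  rw [hc, Algebra.commutes, mul_assoc, ← hc, Units.mul_inv, mul_one]

/-- groups which normalise a proper algebra, over an algebraically closed field -/
theorem nm_mem {C : (G : Type) → [Group G] → Prop} (hC : Inherits C) (hE : Extension C)
    (hS : ∀ (G : Type) [Group G], Group.IsSolvable G → C G) [IsAlgClosed K] [FiniteDimensional K V]
    (hk : ∀ (W : Type) [AddCommGroup W] [Module K W] [FiniteDimensional K W], finrank K W < finrank K V → C (PV K W))
    {G : Type} [Group G] (j : G →* PV K V) (hj : Function.Injective j) (A : Subalgebra K (Module.End K V))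
    (hN : Nm j A) (h0 : A ≠ ⊥) (h1 : A ≠ ⊤) : C G := by
  have hB : Subalgebra.centralizer K (A : Set (Module.End K V)) ≠ ⊤ := by
    intro h
    apply h0
    rw [eq_bot_iff]
    intro a ha
    have h2 : a ∈ Subalgebra.center K (Module.End K V) := by
      rw [Subalgebra.mem_center_iff]
      intro b
      have hb : b ∈ Subalgebra.centralizer K (A : Set (Module.End K V)) := by
        rw [h]
        exact Algebra.mem_top
      exact ((Subalgebra.mem_centralizer_iff K).1 hb a ha).symm
    exact Algebra.IsCentral.out h2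
  rcases wed hC hE hS hk j hj A hN h1 with h | ⟨s, hs, ⟨e⟩⟩
  · exact h
  rcases wed hC hE hS hk j hj _ hN.centralizer hB with h | ⟨t, ht, ⟨f⟩⟩
  · exact h
  have hdim : ∀ s : ℕ, finrank K (Fin s → K) = s := fun s => by rw [Module.finrank_fin_fun]
  have hA : C (A ≃ₐ[K] A) := aut_mem_of_equiv hC e (hk _ (by rw [hdim]; exact hs))
  have hBB := aut_mem_of_equiv hC f (hk _ (by rw [hdim]; exact ht))
  refine core hC hE hS ((MonoidHom.fst G (GV K V)).comp (pb j).subtype) (pb_surj j)
    ((cAut hN).prod (cAut hN.centralizer)) (MonoidHom.id _) (prod_mem hC hA hBB) ?_ ?_ ?_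
  · intro x hx
    exact Prod.ext (cAut_scalar hN hx) (cAut_scalar hN.centralizer hx)
  · intro a b ha hb
    have ha' : a = 1 := ha
    have hb' : b = 1 := hb
    rw [ha', hb']
  · intro x y hx hy
    have hx1 : cAut hN x = 1 := congrArg Prod.fst hx
    have hy2 : cAut hN.centralizer y = 1 := congrArg Prod.snd hy
    apply pb_ext hj
    apply Units.ext
    have h3 : x.1.2.val ∈ Subalgebra.centralizer K (A : Set (Module.End K V)) := by
      rw [Subalgebra.mem_centralizer_iff]
      intro a ha
      exact cAut_eq_one hN hx1 ha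
    exact cAut_eq_one hN.centralizer hy2 h3

end Pool.Agent.H54.NA
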