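import Pool.Agent.H65.NT.Ring

/-!
# H54 NA, Cor: the projective group of a vector space, groups with a solvable kernel
-/

set_option autoImplicit false

namespace Pool.Agent.H54.NA

open Pool.Agent.H98.FJ Module

/-- the general linear group of a vector space -/
abbrev GV (K V : Type) [Field K] [AddCommGroup V] [Module K V] : Type := (Module.End K V)ˣ

/-- the projective group of a vector space -/
abbrev PV (K V : Type) [Field K] [AddCommGroup V] [Module K V] : Type :=
  (Module.End K V)ˣ ⧸ Subgroup.center (Module.End K V)ˣ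

/-- the quotient map -/
def mk (K V : Type) [Field K] [AddCommGroup V] [Module K V] : GV K V →* PV K V := QuotientGroup.mk' _

section

variable {K V : Type} [Field K] [AddCommGroup V] [Module K V]

theorem mk_surj : Function.Surjective (mk K V) := QuotientGroup.mk'_surjective _

theorem mk_eq_one_iff {g : GV K V} : mk K V g = 1 ↔ g ∈ Subgroup.center (GV K V) := by
  unfold mk
  rw [QuotientGroup.mk'_apply, QuotientGroup.eq_one_iff]

theorem mk_comm {g : GV K V} (h : mk K V g = 1) (x : GV K V) : g * x = x * g :=
  (Subgroup.mem_center_iff.1 (mk_eq_one_iff.1 h) x).symm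

/-- central elements are scalars. Proof. `g` commutes with all `1 + (f ⊗ x)`, `f x = 0`, or: every vector is an eigenvector. -/
theorem scalar_of_mk [FiniteDimensional K V] {g : GV K V} (h : mk K V g = 1) :
    ∃ c : K, g.val = algebraMap K (Module.End K V) c := by
  let b := Module.finBasis K V
  let e : Module.End K V ≃ₐ[K] Matrix (Fin (finrank K V)) (Fin (finrank K V)) K := LinearMap.toMatrixAlgEquiv b
  let u : GV K V ≃* GL (Fin (finrank K V)) K := Units.mapEquiv e.toMulEquiv
  have h1 : u g ∈ Subgroup.center (GL (Fin (finrank K V)) K) := by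
    rw [Subgroup.mem_center_iff]
    intro x
    obtain ⟨y, rfl⟩ := u.surjective x
    rw [← map_mul, ← map_mul, mk_comm h y]
  rw [Matrix.GeneralLinearGroup.mem_center_iff_val_mem_range_scalar] at h1
  obtain ⟨c, hc⟩ := h1
  refine ⟨c, e.injective ?_⟩
  rw [e.commutes]
  have h2 : (u g).val = e g.val := rfl
  rw [← h2, ← hc]
  rfl

theorem mk_of_scalar {g : GV K V} {c : K} (h : g.val = algebraMap K (Module.End K V) c) : mk K V g = 1 := by
  rw [mk_eq_one_iff, Subgroup.mem_center_iff]
  intro x
  apply Units.ext
  rw [Units.val_mul, Units.val_mul, h]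
  exact (Algebra.commutes c x.val).symm

end

/-- isomorphic groups have isomorphic quotients by the centre -/
theorem center_congr {C : (G : Type) → [Group G] → Prop} (hC : Inherits C) {A B : Type} [Group A] [Group B]
    (e : A ≃* B) (h : C (A ⧸ Subgroup.center A)) : C (B ⧸ Subgroup.center B) := by
  refine hC.iso _ _ (QuotientGroup.congr (Subgroup.center A) (Subgroup.center B) e ?_) h
  ext x
  constructor
  · rintro ⟨y, hy, rfl⟩
    rw [Subgroup.mem_center_iff]
    intro z
    obtain ⟨w, rfl⟩ := e.surjective z
    show e w * e y = e y * e w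
    rw [← map_mul, ← map_mul, Subgroup.mem_center_iff.1 hy w]
  · intro hx
    refine ⟨e.symm x, ?_, e.apply_symm_apply x⟩
    rw [SetLike.mem_coe, Subgroup.mem_center_iff]
    intro z
    apply e.injective
    rw [map_mul, map_mul, e.apply_symm_apply]
    exact Subgroup.mem_center_iff.1 hx (e z)

/-- the projective group depends on the dimension only -/
theorem pv_of_pg {C : (G : Type) → [Group G] → Prop} (hC : Inherits C) (K V : Type) [Field K] [AddCommGroup V]
    [Module K V] [FiniteDimensional K V] {n : ℕ} (hn : finrank K V = n)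
    (h : C (GL (Fin n) K ⧸ Subgroup.center (GL (Fin n) K))) : C (PV K V) := by
  subst hn
  exact center_congr hC (Units.mapEquiv (LinearMap.toMatrixAlgEquiv (Module.finBasis K V)).toMulEquiv).symm h

theorem pg_of_pv {C : (G : Type) → [Group G] → Prop} (hC : Inherits C) (K V : Type) [Field K] [AddCommGroup V]
    [Module K V] [FiniteDimensional K V] {n : ℕ} (hn : finrank K V = n) (h : C (PV K V)) :
    C (GL (Fin n) K ⧸ Subgroup.center (GL (Fin n) K)) := by
  subst hn
  exact center_congr hC (Units.mapEquiv (LinearMap.toMatrixAlgEquiv (Module.finBasis K V)).toMulEquiv) h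

/-- solvable from a homomorphism with commutative image and commutative kernel -/
theorem solv_two {A B : Type} [Group A] [Group B] (f : A →* B) (hk : ∀ a b : A, f a = 1 → f b = 1 → a * b = b * a)
    (hi : ∀ a b : A, f a * f b = f b * f a) : Group.IsSolvable A := by
  have h1 : Group.IsSolvable f.ker := Group.isSolvable_of_comm fun a b => Subtype.ext (hk a.1 b.1 a.2 b.2)
  have h2 : Group.IsSolvable f.range := Group.isSolvable_of_comm fun a b => by
    obtain ⟨x, hx⟩ := a.2
    obtain ⟨y, hy⟩ := b.2
    apply Subtype.ext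
    show a.1 * b.1 = b.1 * a.1
    rw [← hx, ← hy, hi]
  refine Group.isSolvable_of_ker_le_range f.ker.subtype f.rangeRestrict ?_
  rw [Subgroup.range_subtype]
  intro x hx
  exact congrArg Subtype.val hx

/-- the criterion: `E → G` surjective, `ρ : E → B`, `q : B → Q`, with `Q` in the class, `q` and `ρ` with commutative kernels -/
theorem core {C : (G : Type) → [Group G] → Prop} (hC : Inherits C) (hE : Extension C)
    (hS : ∀ (G : Type) [Group G], Group.IsSolvable G → C G) {E G B Q : Type} [Group E] [Group G] [Group B] [Group Q]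
    (π : E →* G) (hπ : Function.Surjective π) (ρ : E →* B) (q : B →* Q) (hQ : C Q)
    (hz : ∀ x, π x = 1 → q (ρ x) = 1) (hq : ∀ a b : B, q a = 1 → q b = 1 → a * b = b * a)
    (hρ : ∀ x y : E, ρ x = 1 → ρ y = 1 → x * y = y * x) : C G := by
  obtain ⟨f, hf⟩ : ∃ f : G →* Q, ∀ x, f (π x) = q (ρ x) := by
    refine ⟨(MonoidHom.liftOfSurjective π hπ) ⟨q.comp ρ, ?_⟩, fun x => ?_⟩
    · intro x hx
      exact hz x hx
    · exact MonoidHom.liftOfRightInverse_comp_apply _ _ _ _ x
  refine Pool.Agent.H65.NT.solv_ext hC hE hS f ?_ hQ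
  -- the kernel is the image of the kernel of `q ∘ ρ`
  have h1 : Group.IsSolvable (q.comp ρ).ker := by
    refine solv_two (ρ.comp (q.comp ρ).ker.subtype) ?_ ?_
    · intro a b ha hb
      exact Subtype.ext (hρ a.1 b.1 ha hb)
    · intro a b
      exact hq _ _ a.2 b.2
  let g : (q.comp ρ).ker →* f.ker :=
    { toFun := fun x => ⟨π x.1, by
        rw [MonoidHom.mem_ker, hf]
        exact x.2⟩
      map_one' := Subtype.ext (map_one π)
      map_mul' := fun x y => Subtype.ext (map_mul π x.1 y.1) }
  have hg : Function.Surjective g := by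
    rintro ⟨y, hy⟩
    obtain ⟨x, rfl⟩ := hπ y
    refine ⟨⟨x, ?_⟩, rfl⟩
    rw [MonoidHom.mem_ker, MonoidHom.comp_apply, ← hf]
    exact hy
  exact Group.isSolvable_of_surjective hg

end Pool.Agent.H54.NA
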