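import Pool.Agent.H54.NA.Alg

/-!
# H54 NA, Des: groups which normalise a proper algebra, all fields
-/

set_option autoImplicit false

namespace Pool.Agent.H54.NA

open Pool.Agent.H98.FJ Module

/-- one lift suffices -/
theorem nm_of_lift {K V : Type} [Field K] [AddCommGroup V] [Module K V] [FiniteDimensional K V] {G : Type} [Group G]
    {j : G →* PV K V} {A : Subalgebra K (Module.End K V)}
    (h : ∀ x : G, ∃ g : GV K V, mk K V g = j x ∧ ∀ a ∈ A, g.val * a * (g⁻¹).val ∈ A) : Nm j A := by
  intro x g hg a ha
  obtain ⟨g', hg', h'⟩ := h x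
  have h1 : mk K V (g'⁻¹ * g) = 1 := by rw [map_mul, map_inv, hg, hg', inv_mul_cancel]
  have h2 := mk_comm h1
  obtain ⟨c, hc⟩ := scalar_of_mk h1
  have h3 : g.val * a * (g⁻¹).val = g'.val * a * (g'⁻¹).val := by
    have e1 : g = g' * (g'⁻¹ * g) := by rw [mul_inv_cancel_left]
    have e2 : g⁻¹ = (g'⁻¹ * g)⁻¹ * g'⁻¹ := by group
    have e3 : g.val = g'.val * (g'⁻¹ * g : GV K V).val := by
      rw [← Units.val_mul, ← e1]
    have e4 : (g⁻¹).val = ((g'⁻¹ * g)⁻¹ : GV K V).val * (g'⁻¹).val := by
      rw [← Units.val_mul, ← e2]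
    rw [e3, e4]
    calc g'.val * (g'⁻¹ * g : GV K V).val * a * (((g'⁻¹ * g)⁻¹ : GV K V).val * (g'⁻¹).val)
        = g'.val * ((g'⁻¹ * g : GV K V).val * a * ((g'⁻¹ * g)⁻¹ : GV K V).val) * (g'⁻¹).val := by
          simp only [mul_assoc]
      _ = g'.val * a * (g'⁻¹).val := by
          congr 2
          rw [hc, Algebra.commutes, mul_assoc, ← hc, Units.mul_inv, mul_one]
  rw [h3]
  exact h' a ha

variable (F L : Type) [Field F] [Field L] [Algebra F L] (n : ℕ)

/-- matrices over the smaller field as endomorphisms over the larger field -/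
noncomputable def io : Matrix (Fin n) (Fin n) F →+* Module.End L (Fin n → L) :=
  ((Matrix.toLinAlgEquiv' : Matrix (Fin n) (Fin n) L ≃ₐ[L] Module.End L (Fin n → L)) :
    Matrix (Fin n) (Fin n) L →+* Module.End L (Fin n → L)).comp (algebraMap F L).mapMatrix

theorem io_inj : Function.Injective (io F L n) := by
  intro a b hab
  have h1 : (algebraMap F L).mapMatrix a = (algebraMap F L).mapMatrix b :=
    (Matrix.toLinAlgEquiv' : Matrix (Fin n) (Fin n) L ≃ₐ[L] Module.End L (Fin n → L)).injective hab
  ext i k
  have h2 := congrFun (congrFun h1 i) k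
  exact (algebraMap F L).injective h2

/-- the map of the linear groups -/
noncomputable def ioG : GL (Fin n) F →* GV L (Fin n → L) := Units.map (io F L n : _ →* _)

theorem ioG_val (g : GL (Fin n) F) : (ioG F L n g).val = io F L n g.val := rfl

theorem ioG_center {g : GL (Fin n) F} : mk L (Fin n → L) (ioG F L n g) = 1 ↔ g ∈ Subgroup.center (GL (Fin n) F) := by
  constructor
  · intro h
    rw [Subgroup.mem_center_iff]
    intro x
    have h1 := mk_comm h (ioG F L n x)
    apply Units.ext
    apply io_inj F L n
    have h2 := congrArg Units.val h1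
    rw [Units.val_mul, Units.val_mul, ioG_val, ioG_val, ← map_mul, ← map_mul] at h2
    rw [Units.val_mul, Units.val_mul]
    exact h2.symm
  · intro h
    obtain ⟨c, hc⟩ := (Matrix.GeneralLinearGroup.mem_center_iff_val_mem_range_scalar).1 h
    refine mk_of_scalar (c := algebraMap F L c) ?_
    rw [ioG_val, ← hc]
    show Matrix.toLinAlgEquiv' ((algebraMap F L).mapMatrix (Matrix.scalar (Fin n) c)) = _
    have h1 : (algebraMap F L).mapMatrix (Matrix.scalar (Fin n) c) =
        algebraMap L (Matrix (Fin n) (Fin n) L) (algebraMap F L c) := by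
      ext i k
      rw [RingHom.mapMatrix_apply, Matrix.map_apply, Matrix.scalar_apply, Matrix.algebraMap_matrix_apply,
        Matrix.diagonal_apply]
      split_ifs <;> simp
    rw [h1]
    exact AlgEquiv.commutes _ _

/-- the map of the projective groups -/
noncomputable def ioP : (GL (Fin n) F ⧸ Subgroup.center (GL (Fin n) F)) →* PV L (Fin n → L) :=
  QuotientGroup.lift _ ((mk L (Fin n → L)).comp (ioG F L n)) fun _ hg => (ioG_center F L n).2 hg

theorem ioP_mk (g : GL (Fin n) F) :
    ioP F L n (QuotientGroup.mk' (Subgroup.center (GL (Fin n) F)) g) = mk L (Fin n → L) (ioG F L n g) := rfl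

theorem ioP_inj : Function.Injective (ioP F L n) := by
  rw [injective_iff_map_eq_one]
  intro x hx
  obtain ⟨g, rfl⟩ := QuotientGroup.mk'_surjective _ x
  rw [ioP_mk, ioG_center] at hx
  exact (QuotientGroup.eq_one_iff g).2 hx

/-- groups which normalise a proper algebra -/
theorem na {C : (G : Type) → [Group G] → Prop} (hC : Inherits C) (hE : Extension C)
    (hS : ∀ (G : Type) [Group G], Group.IsSolvable G → C G) (F : Type) [Field F] (n : ℕ)
    (hk : ∀ k < n, C (GL (Fin k) (AlgebraicClosure F) ⧸ Subgroup.center (GL (Fin k) (AlgebraicClosure F))))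
    (A : Submodule F (Matrix (Fin n) (Fin n) F)) (hone : 1 ∈ A) (hmul : ∀ a ∈ A, ∀ b ∈ A, a * b ∈ A)
    (h0 : ∃ a ∈ A, ∀ c : F, a ≠ c • (1 : Matrix (Fin n) (Fin n) F)) (h1 : A ≠ ⊤) {G : Type} [Group G]
    (j : G →* GL (Fin n) F ⧸ Subgroup.center (GL (Fin n) F)) (hj : Function.Injective j)
    (hG : ∀ (x : G) (g : GL (Fin n) F), QuotientGroup.mk' (Subgroup.center (GL (Fin n) F)) g = j x →
      ∀ a ∈ A, g.val * a * (g⁻¹).val ∈ A) : C G := by
  classical
  let S : Set (Module.End (AlgebraicClosure F) (Fin n → AlgebraicClosure F)) :=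
    (io F (AlgebraicClosure F) n) '' (A : Set (Matrix (Fin n) (Fin n) F))
  have hcl : (Submonoid.closure S : Set (Module.End (AlgebraicClosure F) (Fin n → AlgebraicClosure F))) = S := by
    refine subset_antisymm ?_ Submonoid.subset_closure
    let T : Submonoid (Module.End (AlgebraicClosure F) (Fin n → AlgebraicClosure F)) :=
      { carrier := S
        one_mem' := ⟨1, hone, map_one _⟩
        mul_mem' := by
          rintro _ _ ⟨a, ha, rfl⟩ ⟨b, hb, rfl⟩
          exact ⟨a * b, hmul a ha b hb, map_mul _ _ _⟩ }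
    exact (Submonoid.closure_le (S := T)).2 (le_refl S)
  have hspan : Subalgebra.toSubmodule (Algebra.adjoin (AlgebraicClosure F) S) = Submodule.span (AlgebraicClosure F) S := by
    rw [Algebra.adjoin_eq_span, hcl]
  refine nm_mem hC hE hS (K := AlgebraicClosure F) (V := Fin n → AlgebraicClosure F) ?_
    ((ioP F (AlgebraicClosure F) n).comp j) ((ioP_inj F (AlgebraicClosure F) n).comp hj)
    (Algebra.adjoin (AlgebraicClosure F) S) ?_ ?_ ?_
  · intro W _ _ _ hW
    rw [Module.finrank_fin_fun] at hW
    exact pv_of_pg hC (AlgebraicClosure F) W rfl (hk _ hW)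
  · refine nm_of_lift fun x => ?_
    obtain ⟨g, hg⟩ := QuotientGroup.mk'_surjective (Subgroup.center (GL (Fin n) F)) (j x)
    refine ⟨ioG F (AlgebraicClosure F) n g, ?_, ?_⟩
    · rw [MonoidHom.comp_apply, ← hg, ioP_mk]
    · intro a ha
      have ha' : a ∈ Submodule.span (AlgebraicClosure F) S := by
        rw [← hspan]
        exact ha
      show _ ∈ Subalgebra.toSubmodule (Algebra.adjoin (AlgebraicClosure F) S)
      rw [hspan]
      clear ha
      induction ha' using Submodule.span_induction with
      | mem y hy =>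
        obtain ⟨b, hb, rfl⟩ := hy
        refine Submodule.subset_span ⟨g.val * b * (g⁻¹).val, hG x g hg b hb, ?_⟩
        rw [map_mul, map_mul]
        rfl
      | zero =>
        rw [mul_zero, zero_mul]
        exact Submodule.zero_mem _
      | add y z _ _ hy hz =>
        rw [mul_add, add_mul]
        exact Submodule.add_mem _ hy hz
      | smul c y _ hy =>
        rw [mul_smul_comm, smul_mul_assoc]
        exact Submodule.smul_mem _ c hy
  · intro hb
    obtain ⟨a, ha, hac⟩ := h0
    have h2 : io F (AlgebraicClosure F) n a ∈ Algebra.adjoin (AlgebraicClosure F) S :=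
      Algebra.subset_adjoin ⟨a, ha, rfl⟩
    rw [hb, Algebra.mem_bot] at h2
    obtain ⟨c, hc⟩ := h2
    rcases Nat.eq_zero_or_pos n with hn | hn
    · subst hn
      exact hac 0 (Subsingleton.elim _ _)
    have h3 : (algebraMap F (AlgebraicClosure F)).mapMatrix a =
        algebraMap (AlgebraicClosure F) (Matrix (Fin n) (Fin n) (AlgebraicClosure F)) c := by
      apply (Matrix.toLinAlgEquiv' : Matrix (Fin n) (Fin n) (AlgebraicClosure F) ≃ₐ[AlgebraicClosure F]
        Module.End (AlgebraicClosure F) (Fin n → AlgebraicClosure F)).injective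
      rw [AlgEquiv.commutes]
      exact hc.symm
    have h4 : ∀ i k, algebraMap F (AlgebraicClosure F) (a i k) = if i = k then c else 0 := by
      intro i k
      have := congrFun (congrFun h3 i) k
      rw [Matrix.algebraMap_matrix_apply] at this
      exact this
    apply hac (a ⟨0, hn⟩ ⟨0, hn⟩)
    ext i k
    apply (algebraMap F (AlgebraicClosure F)).injective
    rw [h4, Matrix.smul_apply, Matrix.one_apply, smul_eq_mul, map_mul, h4, if_pos rfl]
    split_ifs <;> simp
  · intro ht
    obtain ⟨φ, hφ0, hφ⟩ := Submodule.exists_le_ker_of_lt_top A (lt_top_iff_ne_top.2 h1)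
    apply hφ0
    let ψ : Module.End (AlgebraicClosure F) (Fin n → AlgebraicClosure F) →ₗ[AlgebraicClosure F] AlgebraicClosure F :=
      (∑ i : Fin n, ∑ k : Fin n, (algebraMap F (AlgebraicClosure F) (φ (Matrix.single i k 1))) •
        (Matrix.entryLinearMap (AlgebraicClosure F) (AlgebraicClosure F) i k)) ∘ₗ
        (Matrix.toLinAlgEquiv' : Matrix (Fin n) (Fin n) (AlgebraicClosure F) ≃ₐ[AlgebraicClosure F]
          Module.End (AlgebraicClosure F) (Fin n → AlgebraicClosure F)).symm.toLinearMap
    have hψ : ∀ a : Matrix (Fin n) (Fin n) F, ψ (io F (AlgebraicClosure F) n a) = algebraMap F _ (φ a) := by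
      intro a
      have e1 : ψ (io F (AlgebraicClosure F) n a) = ∑ i : Fin n, ∑ k : Fin n,
          (algebraMap F (AlgebraicClosure F) (φ (Matrix.single i k 1))) * algebraMap F (AlgebraicClosure F) (a i k) := by
        have e2 : (Matrix.toLinAlgEquiv' : Matrix (Fin n) (Fin n) (AlgebraicClosure F) ≃ₐ[AlgebraicClosure F]
            Module.End (AlgebraicClosure F) (Fin n → AlgebraicClosure F)).symm (io F (AlgebraicClosure F) n a) =
            (algebraMap F (AlgebraicClosure F)).mapMatrix a :=
          AlgEquiv.symm_apply_apply _ _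
        show (∑ i : Fin n, ∑ k : Fin n, (algebraMap F (AlgebraicClosure F) (φ (Matrix.single i k 1))) •
          (Matrix.entryLinearMap (AlgebraicClosure F) (AlgebraicClosure F) i k))
            ((Matrix.toLinAlgEquiv' : Matrix (Fin n) (Fin n) (AlgebraicClosure F) ≃ₐ[AlgebraicClosure F]
            Module.End (AlgebraicClosure F) (Fin n → AlgebraicClosure F)).symm (io F (AlgebraicClosure F) n a)) = _
        rw [e2, LinearMap.sum_apply]
        refine Finset.sum_congr rfl fun i _ => ?_
        rw [LinearMap.sum_apply]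
        rfl
      rw [e1]
      have e3 : φ a = ∑ i : Fin n, ∑ k : Fin n, φ (Matrix.single i k 1) * a i k := by
        conv_lhs => rw [Matrix.matrix_eq_sum_single a]
        rw [map_sum]
        refine Finset.sum_congr rfl fun i _ => ?_
        rw [map_sum]
        refine Finset.sum_congr rfl fun k _ => ?_
        have e4 : Matrix.single i k (a i k) = (a i k) • Matrix.single i k (1 : F) := by
          rw [Matrix.smul_single, smul_eq_mul, mul_one]
        rw [e4, map_smul, smul_eq_mul, mul_comm]
      rw [e3, map_sum]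
      refine Finset.sum_congr rfl fun i _ => ?_
      rw [map_sum]
      refine Finset.sum_congr rfl fun k _ => ?_
      rw [map_mul]
    have hker : Submodule.span (AlgebraicClosure F) S ≤ LinearMap.ker ψ := by
      rw [Submodule.span_le]
      rintro _ ⟨a, ha, rfl⟩
      rw [SetLike.mem_coe, LinearMap.mem_ker, hψ]
      have : φ a = 0 := hφ ha
      rw [this, map_zero]
    have h2 : ∀ x, ψ x = 0 := by
      intro x
      apply hker
      rw [← hspan, ht, Algebra.top_toSubmodule]
      exact Submodule.mem_top
    ext1 a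
    apply (algebraMap F (AlgebraicClosure F)).injective
    rw [← hψ, h2, LinearMap.zero_apply, map_zero]

end Pool.Agent.H54.NA
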