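import Pool.Agent.H54.NA.Par

/-!
# H54 NA, Eig: groups which normalise an algebra with a centre which is not scalar
-/

set_option autoImplicit false

namespace Pool.Agent.H54.NA

open Pool.Agent.H98.FJ Module

variable {K V : Type} [Field K] [AddCommGroup V] [Module K V]

/-- `g` normalises `A` for all lifts `g` of elements of the group -/
def Nm {G : Type} [Group G] (j : G →* PV K V) (A : Subalgebra K (Module.End K V)) : Prop :=
  ∀ (x : G) (g : GV K V), mk K V g = j x → ∀ a ∈ A, g.val * a * (g⁻¹).val ∈ A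

theorem Nm.inv {G : Type} [Group G] {j : G →* PV K V} {A : Subalgebra K (Module.End K V)} (h : Nm j A) {x : G}
    {g : GV K V} (hg : mk K V g = j x) {a : Module.End K V} (ha : a ∈ A) : (g⁻¹).val * a * g.val ∈ A := by
  have := h x⁻¹ g⁻¹ (by rw [map_inv, map_inv, hg]) a ha
  rwa [inv_inv] at this

/-- conjugation cancels -/
theorem cj_cancel (g : GV K V) (a : Module.End K V) : g.val * ((g⁻¹).val * a * g.val) * (g⁻¹).val = a := by
  have h1 : g.val * (g⁻¹).val = 1 := Units.mul_inv g
  calc g.val * ((g⁻¹).val * a * g.val) * (g⁻¹).val = (g.val * (g⁻¹).val) * a * (g.val * (g⁻¹).val) := by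
        simp only [mul_assoc]
    _ = a := by rw [h1, one_mul, mul_one]

theorem cj_mul' (g : GV K V) (a b : Module.End K V) :
    g.val * (a * b) * (g⁻¹).val = (g.val * a * (g⁻¹).val) * (g.val * b * (g⁻¹).val) := by
  have h1 : (g⁻¹).val * g.val = 1 := Units.inv_mul g
  calc g.val * (a * b) * (g⁻¹).val = g.val * a * 1 * b * (g⁻¹).val := by simp only [mul_assoc, mul_one]
    _ = _ := by
      rw [← h1]
      simp only [mul_assoc]

/-- the centralizer is normalised -/
theorem Nm.centralizer {G : Type} [Group G] {j : G →* PV K V} {A : Subalgebra K (Module.End K V)} (h : Nm j A) :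
    Nm j (Subalgebra.centralizer K (A : Set (Module.End K V))) := by
  intro x g hg b hb
  rw [Subalgebra.mem_centralizer_iff] at hb ⊢
  intro a ha
  have h1 := hb _ (h.inv hg ha)
  have h2 := cj_cancel g a
  calc a * (g.val * b * (g⁻¹).val) = (g.val * ((g⁻¹).val * a * g.val) * (g⁻¹).val) * (g.val * b * (g⁻¹).val) := by
        rw [h2]
    _ = g.val * (((g⁻¹).val * a * g.val) * b) * (g⁻¹).val := (cj_mul' g _ _).symm
    _ = g.val * (b * ((g⁻¹).val * a * g.val)) * (g⁻¹).val := by rw [h1]
    _ = (g.val * b * (g⁻¹).val) * (g.val * ((g⁻¹).val * a * g.val) * (g⁻¹).val) := cj_mul' g _ _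
    _ = (g.val * b * (g⁻¹).val) * a := by rw [h2]

theorem Nm.inf {G : Type} [Group G] {j : G →* PV K V} {A B : Subalgebra K (Module.End K V)} (hA : Nm j A) (hB : Nm j B) :
    Nm j (A ⊓ B) := fun x g hg a ha => ⟨hA x g hg a ha.1, hB x g hg a ha.2⟩

/-- conjugation on a normalised algebra -/
def cA {G : Type} [Group G] {j : G →* PV K V} {A : Subalgebra K (Module.End K V)} (h : Nm j A) (x : pb j) :
    A →ₐ[K] A where
  toFun a := ⟨x.1.2.val * a.1 * (x.1.2⁻¹).val, h x.1.1 x.1.2 (mem_pb j x) a.1 a.2⟩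
  map_one' := by
    apply Subtype.ext
    show x.1.2.val * 1 * (x.1.2⁻¹).val = 1
    rw [mul_one]
    exact Units.mul_inv _
  map_mul' a b := Subtype.ext (cj_mul' _ _ _)
  map_zero' := by
    apply Subtype.ext
    show x.1.2.val * 0 * (x.1.2⁻¹).val = 0
    rw [mul_zero, zero_mul]
  map_add' a b := by
    apply Subtype.ext
    show x.1.2.val * (a.1 + b.1) * (x.1.2⁻¹).val = x.1.2.val * a.1 * (x.1.2⁻¹).val + x.1.2.val * b.1 * (x.1.2⁻¹).val
    rw [mul_add, add_mul]
  commutes' c := by
    apply Subtype.ext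
    show x.1.2.val * algebraMap K _ c * (x.1.2⁻¹).val = algebraMap K _ c
    rw [← Algebra.commutes, mul_assoc, Units.mul_inv, mul_one]

theorem cA_val {G : Type} [Group G] {j : G →* PV K V} {A : Subalgebra K (Module.End K V)} (h : Nm j A) (x : pb j)
    (a : A) : ((cA h x a : A) : Module.End K V) = x.1.2.val * a.1 * (x.1.2⁻¹).val := rfl

theorem cA_one {G : Type} [Group G] {j : G →* PV K V} {A : Subalgebra K (Module.End K V)} (h : Nm j A) (a : A) :
    cA h 1 a = a := by
  apply Subtype.ext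
  rw [cA_val]
  show 1 * a.1 * (1 : Module.End K V) = a.1
  rw [one_mul, mul_one]

theorem cA_mul {G : Type} [Group G] {j : G →* PV K V} {A : Subalgebra K (Module.End K V)} (h : Nm j A) (x y : pb j)
    (a : A) : cA h (x * y) a = cA h x (cA h y a) := by
  apply Subtype.ext
  rw [cA_val, cA_val, cA_val]
  show (x.1.2.val * y.1.2.val) * a.1 * ((y.1.2⁻¹).val * (x.1.2⁻¹).val) = _
  simp only [mul_assoc]

/-- a common eigenvector of a commutative algebra -/
theorem exists_char [IsAlgClosed K] [FiniteDimensional K V] [Nontrivial V] (Z : Subalgebra K (Module.End K V))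
    (hZ : ∀ a ∈ Z, ∀ b ∈ Z, a * b = b * a) :
    ∃ (χ : Z →ₐ[K] K) (v : V), v ≠ 0 ∧ ∀ z : Z, z.1 v = χ z • v := by
  classical
  have hex : ∃ k : ℕ, ∃ S : Submodule K V, S ≠ ⊥ ∧ (∀ z ∈ Z, ∀ v ∈ S, z v ∈ S) ∧ finrank K S = k :=
    ⟨_, ⊤, top_ne_bot, fun _ _ _ _ => Submodule.mem_top, rfl⟩
  obtain ⟨S, hS0, hSZ, hSk⟩ := Nat.find_spec hex
  have hmin : ∀ T : Submodule K V, T ≠ ⊥ → (∀ z ∈ Z, ∀ v ∈ T, z v ∈ T) → T ≤ S → T = S := by
    intro T h1 h2 h3
    have h4 := Nat.find_min' hex ⟨T, h1, h2, rfl⟩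
    apply Submodule.eq_of_le_of_finrank_le h3
    rw [hSk]
    exact h4
  have hsc : ∀ z ∈ Z, ∃ c : K, ∀ v ∈ S, z v = c • v := by
    intro z hz
    have : Nontrivial S := Submodule.nontrivial_iff_ne_bot.2 hS0
    obtain ⟨c, hc⟩ := Module.End.exists_eigenvalue (z.restrict (hSZ z hz))
    obtain ⟨w, hw⟩ := hc.exists_hasEigenvector
    refine ⟨c, ?_⟩
    obtain ⟨T, hT⟩ : ∃ T : Submodule K V, ∀ v, v ∈ T ↔ v ∈ S ∧ z v = c • v := by
      refine ⟨S ⊓ LinearMap.ker (z - c • LinearMap.id), fun v => ?_⟩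
      rw [Submodule.mem_inf, LinearMap.mem_ker, LinearMap.sub_apply, sub_eq_zero]
      rfl
    have h1 : T = S := by
      refine hmin T ?_ ?_ ?_
      · intro h0
        have hm : (w : V) ∈ T := by
          rw [hT]
          refine ⟨w.2, ?_⟩
          have := congrArg Subtype.val hw.apply_eq_smul
          exact this
        rw [h0, Submodule.mem_bot] at hm
        exact hw.2 (Subtype.ext hm)
      · intro y hy v hv
        rw [hT] at hv ⊢
        refine ⟨hSZ y hy v hv.1, ?_⟩
        have := congrArg (fun f : Module.End K V => f v) (hZ z hz y hy)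
        have h2 : z (y v) = y (z v) := this
        rw [h2, hv.2, map_smul]
      · intro v hv
        exact ((hT v).1 hv).1
    intro v hv
    rw [← h1] at hv
    exact ((hT v).1 hv).2
  obtain ⟨v, hvS, hv0⟩ := (Submodule.ne_bot_iff S).1 hS0
  obtain ⟨l, hl⟩ := Module.Projective.exists_dual_eq_one K hv0
  have key : ∀ z ∈ Z, z v = l (z v) • v := by
    intro z hz
    obtain ⟨c, hc⟩ := hsc z hz
    rw [hc v hvS, map_smul, hl, smul_eq_mul, mul_one]
  let χ0 : Z →ₗ[K] K :=
    { toFun := fun z => l (z.1 v)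
      map_add' := fun a b => by
        show l ((a.1 + b.1) v) = _
        rw [LinearMap.add_apply, map_add]
      map_smul' := fun c a => by
        show l ((c • a.1) v) = _
        rw [LinearMap.smul_apply, map_smul]
        rfl }
  refine ⟨AlgHom.ofLinearMap χ0 ?_ ?_, v, hv0, fun z => key z.1 z.2⟩
  · show l ((1 : Module.End K V) v) = 1
    exact hl
  · intro a b
    show l ((a.1 * b.1) v) = l (a.1 v) * l (b.1 v)
    have h1 : l (a.1 (b.1 v)) = l (a.1 (l (b.1 v) • v)) := by rw [← key b.1 b.2]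
    rw [Module.End.mul_apply, h1, map_smul, map_smul, smul_eq_mul, mul_comm]

/-- groups which normalise an algebra whose centre is not scalar -/
theorem eig {C : (G : Type) → [Group G] → Prop} (hC : Inherits C) (hE : Extension C)
    (hS : ∀ (G : Type) [Group G], Group.IsSolvable G → C G) [IsAlgClosed K] [FiniteDimensional K V]
    (hk : ∀ (W : Type) [AddCommGroup W] [Module K W] [FiniteDimensional K W], finrank K W < finrank K V → C (PV K W))
    {G : Type} [Group G] (j : G →* PV K V) (hj : Function.Injective j) (Z : Subalgebra K (Module.End K V))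
    (hN : Nm j Z) (hZ : ∀ a ∈ Z, ∀ b ∈ Z, a * b = b * a) (hne : Z ≠ ⊥) : C G := by
  classical
  have hnt : Nontrivial V := by
    by_contra h
    rw [not_nontrivial_iff_subsingleton] at h
    apply hne
    rw [eq_bot_iff]
    intro z _
    have : z = algebraMap K _ 0 := LinearMap.ext fun v => Subsingleton.elim _ _
    rw [this]
    exact Subalgebra.algebraMap_mem _ _
  obtain ⟨χ, v, hv, hχ⟩ := exists_char Z hZ
  obtain ⟨U, hU⟩ : ∃ U : Submodule K V, ∀ w, w ∈ U ↔ ∀ z : Z, z.1 w = χ z • w := by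
    refine ⟨⨅ z : Z, LinearMap.ker (z.1 - χ z • LinearMap.id), fun w => ?_⟩
    rw [Submodule.mem_iInf]
    refine forall_congr' fun z => ?_
    rw [LinearMap.mem_ker, LinearMap.sub_apply, sub_eq_zero]
    rfl
  let act : MulAction (pb j) (Z →ₐ[K] K) :=
    { smul := fun x ψ => ψ.comp (cA hN x⁻¹)
      one_smul := fun ψ => by
        show ψ.comp (cA hN (1 : pb j)⁻¹) = ψ
        rw [inv_one]
        exact AlgHom.ext fun a => by rw [AlgHom.comp_apply, cA_one]
      mul_smul := fun x y ψ => by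
        show ψ.comp (cA hN (x * y)⁻¹) = (ψ.comp (cA hN y⁻¹)).comp (cA hN x⁻¹)
        rw [mul_inv_rev]
        exact AlgHom.ext fun a => by
          rw [AlgHom.comp_apply, AlgHom.comp_apply, AlgHom.comp_apply, cA_mul] }
  have hsm : ∀ (x : pb j) (ψ : Z →ₐ[K] K), x • ψ = ψ.comp (cA hN x⁻¹) := fun _ _ => rfl
  have hfin : Finite (pb j ⧸ MulAction.stabilizer (pb j) χ) :=
    Finite.of_equiv _ (MulAction.orbitEquivQuotientStabilizer (pb j) χ)
  have hT : (MulAction.stabilizer (pb j) χ).FiniteIndex := Subgroup.finiteIndex_of_finite_quotient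
  let π : pb j →* G := (MonoidHom.fst G (GV K V)).comp (pb j).subtype
  have hπ : Function.Surjective π := pb_surj j
  have hi : ((MulAction.stabilizer (pb j) χ).map π).FiniteIndex :=
    ⟨fun h0 => hT.index_ne_zero (Nat.eq_zero_of_zero_dvd (h0 ▸ Subgroup.index_map_dvd _ hπ))⟩
  refine hC.index G ((MulAction.stabilizer (pb j) χ).map π) hi ?_
  refine par hC hE hS hk (j.comp ((MulAction.stabilizer (pb j) χ).map π).subtype)
    (hj.comp (Subgroup.subtype_injective _)) U ?_ ?_ ?_
  · intro h0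
    have : v ∈ U := (hU v).2 hχ
    rw [h0, Submodule.mem_bot] at this
    exact hv this
  · intro h1
    apply hne
    rw [eq_bot_iff]
    intro z hz
    have h2 : z = algebraMap K _ (χ ⟨z, hz⟩) := by
      ext w
      have : w ∈ U := by
        rw [h1]
        exact Submodule.mem_top
      exact (hU w).1 this ⟨z, hz⟩
    rw [h2]
    exact Subalgebra.algebraMap_mem _ _
  · rintro ⟨x, hx⟩ g hg u hu
    rw [Subgroup.mem_map] at hx
    obtain ⟨e, he, hex⟩ := hx
    -- the lift in the stabiliser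
    have h1 : ∀ w ∈ U, e.1.2.val w ∈ U := by
      intro w hw
      rw [hU] at hw ⊢
      intro z
      have h2 : χ ((cA hN e⁻¹) z) = χ z := by
        have h3 : e • χ = χ := he
        have h4 := congrArg (fun ψ : Z →ₐ[K] K => ψ z) h3
        exact h4
      have h5 := hw (cA hN e⁻¹ z)
      rw [h2] at h5
      have h6 : ((cA hN e⁻¹ z : Z) : Module.End K V) = (e.1.2⁻¹).val * z.1 * e.1.2.val := by
        rw [cA_val]
        show (e.1.2⁻¹).val * z.1 * ((e.1.2⁻¹)⁻¹).val = _
        rw [inv_inv]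
      rw [h6] at h5
      have h7 : e.1.2.val (((e.1.2⁻¹).val * z.1 * e.1.2.val) w) = z.1 (e.1.2.val w) := by
        have h8 : e.1.2.val * ((e.1.2⁻¹).val * z.1 * e.1.2.val) = z.1 * e.1.2.val := by
          rw [← mul_assoc, ← mul_assoc, Units.mul_inv, one_mul]
        exact congrArg (fun f : Module.End K V => f w) h8
      rw [← h7, h5, map_smul]
    have h9 : mk K V (g * e.1.2⁻¹) = 1 := by
      rw [map_mul, map_inv, hg, mem_pb]
      show j x * (j e.1.1)⁻¹ = 1
      have : e.1.1 = x := hex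
      rw [this, mul_inv_cancel]
    obtain ⟨c, hc⟩ := scalar_of_mk h9
    have h10 : g.val u = c • e.1.2.val u := by
      have h11 : g = (g * e.1.2⁻¹) * e.1.2 := by rw [inv_mul_cancel_right]
      have h12 : g.val = algebraMap K (Module.End K V) c * e.1.2.val := by
        rw [← hc, ← Units.val_mul, ← h11]
      rw [h12]
      rfl
    rw [h10]
    exact U.smul_mem c (h1 u hu)

end Pool.Agent.H54.NA
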