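import Pool.Agent.H54.NA.Des
import Pool.Agent.H10.RA.Pg

/-!
# H54 NA, Fin: the stabiliser of a proper subalgebra in the projective linear group
-/

set_option autoImplicit false

namespace Pool.Agent.H54.NA

open Pool.Agent.H98.FJ Pool.Agent.H10.RA

/-- the stabiliser of a subalgebra which is neither the scalars nor everything -/
theorem na_stab {C : (G : Type) → [Group G] → Prop} (hC : Inherits C) (hE : Extension C)
    (hS : ∀ (G : Type) [Group G], Group.IsSolvable G → C G) {F : Type} [Field F] {n : ℕ}
    (hlow : ∀ j < n, C (PG j (AlgebraicClosure F))) (A : Sp n F)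
    (hA : (1 : Mn n F) ∈ A.sub ∧ ∀ x ∈ A.sub, ∀ y ∈ A.sub, x * y ∈ A.sub)
    (h1 : Module.finrank F A.sub ≠ 1) (h2 : A.sub ≠ ⊤) : C (MulAction.stabilizer (PG n F) A) := by
  refine na hC hE hS F n hlow A.sub hA.1 hA.2 ?_ h2 (MulAction.stabilizer (PG n F) A).subtype
    (Subgroup.subtype_injective _) ?_
  · by_contra hn
    push Not at hn
    rcases Nat.eq_zero_or_pos n with hn0 | hn0
    · subst hn0
      apply h2
      rw [eq_top_iff]
      intro x _
      rw [Subsingleton.elim x 1]
      exact hA.1
    · apply h1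
      have h10 : (⟨1, hA.1⟩ : A.sub) ≠ 0 := by
        intro e
        have e1 : (1 : Mn n F) = 0 := congrArg Subtype.val e
        have e2 := congrFun (congrFun e1 ⟨0, hn0⟩) ⟨0, hn0⟩
        rw [Matrix.one_apply_eq, Matrix.zero_apply] at e2
        exact one_ne_zero e2
      rw [finrank_eq_one_iff_of_nonzero' _ h10]
      intro x
      obtain ⟨c, hc⟩ := hn x.1 x.2
      exact ⟨c, Subtype.ext hc.symm⟩
  · intro x g hg a ha
    have h3 : pr n F g • A = A := by
      have h4 : pr n F g = x.1 := hg
      rw [h4]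
      exact x.2
    have h5 : cjS g A.sub = A.sub := h3
    have h6 : g.val * a * (g⁻¹).val ∈ cjS g A.sub := by
      rw [mem_cjS, ← show cj g a = g.val * a * (g⁻¹).val from rfl, ← cj_mul, inv_mul_cancel, cj_one]
      exact ha
    rw [h5] at h6
    exact h6

end Pool.Agent.H54.NA
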