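import Pool.Agent.H54.NA.Cor

/-!
# H54 NA, Par: groups with an invariant subspace
-/

set_option autoImplicit false

namespace Pool.Agent.H54.NA

open Pool.Agent.H98.FJ Module

variable {K V : Type} [Field K] [AddCommGroup V] [Module K V]

/-- two groups -/
def two (A B : Type) : Bool → Type
  | true => A
  | false => B

instance twoGroup (A B : Type) [Group A] [Group B] : ∀ b, Group (two A B b)
  | true => inferInstanceAs (Group A)
  | false => inferInstanceAs (Group B)

theorem prod_mem {C : (G : Type) → [Group G] → Prop} (hC : Inherits C) {A B : Type} [Group A] [Group B] (hA : C A)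
    (hB : C B) : C (A × B) := by
  have h : C (∀ b, two A B b) := by
    refine hC.pi Bool inferInstance (two A B) fun b => ?_
    cases b
    · exact hB
    · exact hA
  let f : A × B →* (∀ b, two A B b) :=
    { toFun := fun p b => match b with
        | true => p.1
        | false => p.2
      map_one' := by
        funext b
        cases b <;> rfl
      map_mul' := fun x y => by
        funext b
        cases b <;> rfl }
  refine hC.of_injective f ?_ h
  intro x y hxy
  exact Prod.ext (congrFun hxy true) (congrFun hxy false)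

/-- the pull back -/
def pb {G : Type} [Group G] (j : G →* PV K V) : Subgroup (G × GV K V) :=
  MonoidHom.eqLocus ((mk K V).comp (MonoidHom.snd G (GV K V))) (j.comp (MonoidHom.fst G (GV K V)))

theorem mem_pb {G : Type} [Group G] (j : G →* PV K V) (x : pb j) : mk K V x.1.2 = j x.1.1 := x.2

theorem pb_surj {G : Type} [Group G] (j : G →* PV K V) :
    Function.Surjective ((MonoidHom.fst G (GV K V)).comp (pb j).subtype) := by
  intro x
  obtain ⟨g, hg⟩ := mk_surj (j x)
  exact ⟨⟨(x, g), hg⟩, rfl⟩

theorem pb_ext {G : Type} [Group G] {j : G →* PV K V} (hj : Function.Injective j) {x y : pb j}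
    (h : x.1.2 = y.1.2) : x = y := by
  apply Subtype.ext
  refine Prod.ext (hj ?_) h
  rw [← mem_pb, ← mem_pb, h]

theorem pb_one {G : Type} [Group G] {j : G →* PV K V} {x : pb j} (h : x.1.1 = 1) : mk K V x.1.2 = 1 := by
  rw [mem_pb, h, map_one]

/-- the restriction -/
def rs {G : Type} [Group G] (j : G →* PV K V) (U : Submodule K V)
    (hU : ∀ (x : G) (g : GV K V), mk K V g = j x → ∀ u ∈ U, g.val u ∈ U) : pb j →* GV K U :=
  MonoidHom.toHomUnits
    { toFun := fun x => (x.1.2.val).restrict (p := U) (q := U) (hU x.1.1 x.1.2 (mem_pb j x))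
      map_one' := by
        ext u
        rfl
      map_mul' := by
        intro x y
        ext u
        rfl }

/-- the quotient -/
def qs {G : Type} [Group G] (j : G →* PV K V) (U : Submodule K V)
    (hU : ∀ (x : G) (g : GV K V), mk K V g = j x → ∀ u ∈ U, g.val u ∈ U) : pb j →* GV K (V ⧸ U) :=
  MonoidHom.toHomUnits
    { toFun := fun x => U.mapQ U x.1.2.val (hU x.1.1 x.1.2 (mem_pb j x))
      map_one' := by
        ext u
        rfl
      map_mul' := by
        intro x y
        ext u
        rfl }

theorem rs_apply {G : Type} [Group G] (j : G →* PV K V) (U : Submodule K V)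
    (hU : ∀ (x : G) (g : GV K V), mk K V g = j x → ∀ u ∈ U, g.val u ∈ U) (x : pb j) (u : U) :
    (((rs j U hU x).val u : U) : V) = x.1.2.val u := rfl

theorem qs_apply {G : Type} [Group G] (j : G →* PV K V) (U : Submodule K V)
    (hU : ∀ (x : G) (g : GV K V), mk K V g = j x → ∀ u ∈ U, g.val u ∈ U) (x : pb j) (v : V) :
    (qs j U hU x).val (U.mkQ v) = U.mkQ (x.1.2.val v) := rfl

/-- groups with an invariant subspace -/
theorem par {C : (G : Type) → [Group G] → Prop} (hC : Inherits C) (hE : Extension C)
    (hS : ∀ (G : Type) [Group G], Group.IsSolvable G → C G) [FiniteDimensional K V]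
    (hk : ∀ (W : Type) [AddCommGroup W] [Module K W] [FiniteDimensional K W], finrank K W < finrank K V → C (PV K W))
    {G : Type} [Group G] (j : G →* PV K V) (hj : Function.Injective j) (U : Submodule K V) (h0 : U ≠ ⊥) (h1 : U ≠ ⊤)
    (hU : ∀ (x : G) (g : GV K V), mk K V g = j x → ∀ u ∈ U, g.val u ∈ U) : C G := by
  have hlt : finrank K U < finrank K V := Submodule.finrank_lt h1
  have hpos : 0 < finrank K U := by
    rw [Module.finrank_pos_iff]
    exact Submodule.nontrivial_iff_ne_bot.2 h0
  have hlt2 : finrank K (V ⧸ U) < finrank K V := by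
    have := Submodule.finrank_quotient_add_finrank U
    omega
  refine core hC hE hS ((MonoidHom.fst G (GV K V)).comp (pb j).subtype) (pb_surj j)
    ((rs j U hU).prod (qs j U hU)) ((mk K U).prodMap (mk K (V ⧸ U))) (prod_mem hC (hk U hlt) (hk (V ⧸ U) hlt2)) ?_ ?_ ?_
  · intro x hx
    obtain ⟨c, hc⟩ := scalar_of_mk (pb_one hx)
    refine Prod.ext ?_ ?_
    · refine mk_of_scalar (c := c) ?_
      ext u
      refine (rs_apply j U hU x u).trans ?_
      rw [hc]
      rfl
    · refine mk_of_scalar (c := c) ?_
      refine Submodule.linearMap_qext _ ?_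
      ext v
      refine (qs_apply j U hU x v).trans ?_
      rw [hc]
      rfl
  · intro a b ha hb
    have ha1 : mk K U a.1 = 1 := congrArg Prod.fst ha
    have ha2 : mk K (V ⧸ U) a.2 = 1 := congrArg Prod.snd ha
    exact Prod.ext (mk_comm ha1 b.1) (mk_comm ha2 b.2)
  · intro x y hx hy
    have key : ∀ x : pb j, ((rs j U hU).prod (qs j U hU)) x = 1 →
        (∀ u ∈ U, x.1.2.val u = u) ∧ ∀ v, x.1.2.val v - v ∈ U := by
      intro x hx
      have hx1 : rs j U hU x = 1 := congrArg Prod.fst hx
      have hx2 : qs j U hU x = 1 := congrArg Prod.snd hx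
      constructor
      · intro u hu
        have := rs_apply j U hU x ⟨u, hu⟩
        rw [hx1] at this
        exact this.symm
      · intro v
        have := qs_apply j U hU x v
        rw [hx2] at this
        have h2 : U.mkQ v = U.mkQ (x.1.2.val v) := this
        exact (Submodule.Quotient.eq U).1 h2.symm
    obtain ⟨hx1, hx2⟩ := key x hx
    obtain ⟨hy1, hy2⟩ := key y hy
    apply pb_ext hj
    apply Units.ext
    ext v
    show x.1.2.val (y.1.2.val v) = y.1.2.val (x.1.2.val v)
    have e1 : x.1.2.val (y.1.2.val v) = x.1.2.val v + (y.1.2.val v - v) := by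
      have h := hx1 _ (hy2 v)
      rw [map_sub] at h
      rw [← h]
      abel
    have e2 : y.1.2.val (x.1.2.val v) = y.1.2.val v + (x.1.2.val v - v) := by
      have h := hy1 _ (hx2 v)
      rw [map_sub] at h
      rw [← h]
      abel
    rw [e1, e2]
    abel

end Pool.Agent.H54.NA
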