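import Pool.Agent.H54.NA.Eig
import Mathlib.RingTheory.SimpleModule.IsAlgClosed
import Mathlib.RingTheory.HopkinsLevitzki

/-!
# H54 NA, Rad: groups which normalise an algebra with a radical
-/

set_option autoImplicit false

namespace Pool.Agent.H54.NA

open Pool.Agent.H98.FJ Module

variable {K V : Type} [Field K] [AddCommGroup V] [Module K V]

theorem cA_surj {G : Type} [Group G] {j : G →* PV K V} {A : Subalgebra K (Module.End K V)} (h : Nm j A) (x : pb j) :
    Function.Surjective (cA h x) := by
  intro a
  refine ⟨cA h x⁻¹ a, ?_⟩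
  rw [← cA_mul, mul_inv_cancel, cA_one]

theorem cA_jac {G : Type} [Group G] {j : G →* PV K V} {A : Subalgebra K (Module.End K V)} (h : Nm j A) (x : pb j)
    {a : A} (ha : a ∈ Ring.jacobson A) : cA h x a ∈ Ring.jacobson A := by
  have : RingHomSurjective ((cA h x : A →ₐ[K] A) : A →+* A) := ⟨cA_surj h x⟩
  exact Ring.le_comap_jacobson ((cA h x : A →ₐ[K] A) : A →+* A) ha

/-- groups which normalise an algebra with a radical -/
theorem rad {C : (G : Type) → [Group G] → Prop} (hC : Inherits C) (hE : Extension C)
    (hS : ∀ (G : Type) [Group G], Group.IsSolvable G → C G) [FiniteDimensional K V]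
    (hk : ∀ (W : Type) [AddCommGroup W] [Module K W] [FiniteDimensional K W], finrank K W < finrank K V → C (PV K W))
    {G : Type} [Group G] (j : G →* PV K V) (hj : Function.Injective j) (A : Subalgebra K (Module.End K V))
    (hN : Nm j A) (hJ : Ring.jacobson A ≠ ⊥) : C G := by
  classical
  obtain ⟨a, ha, ha0⟩ := (Submodule.ne_bot_iff _).1 hJ
  have ha1 : ∃ v : V, a.1 v ≠ 0 := by
    by_contra hn
    push Not at hn
    exact ha0 (Subtype.ext (LinearMap.ext hn))
  obtain ⟨v, hv⟩ := ha1
  have hnt : Nontrivial V := ⟨⟨_, _, hv⟩⟩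
  have hNoe : IsNoetherian A V := isNoetherian_of_tower K inferInstance
  obtain ⟨U, hU⟩ : ∃ U : Submodule K V, U = ((Ring.jacobson A) • (⊤ : Submodule A V)).restrictScalars K := ⟨_, rfl⟩
  have hUm : ∀ w, w ∈ U ↔ w ∈ ((Ring.jacobson A) • (⊤ : Submodule A V)) := by
    intro w
    rw [hU]
    exact Iff.rfl
  refine par hC hE hS hk j hj U ?_ ?_ ?_
  · intro h0
    have h1 : a.1 v ∈ U := by
      rw [hUm]
      exact Submodule.smul_mem_smul ha Submodule.mem_top
    rw [h0, Submodule.mem_bot] at h1
    exact hv h1
  · intro h1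
    have h2 := Submodule.jacobson_smul_lt_top (R := A) (⊤ : Submodule A V)
    have h3 : ((Ring.jacobson A) • (⊤ : Submodule A V)) = ⊤ := by
      rw [eq_top_iff]
      intro w _
      rw [← hUm, h1]
      exact Submodule.mem_top
    exact h2.ne h3
  · intro x g hg u hu
    rw [hUm] at hu ⊢
    let e : pb j := ⟨(x, g), hg⟩
    induction hu using Submodule.smul_induction_on' with
    | smul b hb w _ =>
      have h1 : g.val (b • w) = (cA hN e b) • (g.val w) := by
        show g.val (b.1 w) = (g.val * b.1 * (g⁻¹).val) (g.val w)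
        have h2 : (g.val * b.1 * (g⁻¹).val) * g.val = g.val * b.1 := by rw [mul_assoc, Units.inv_mul, mul_one]
        exact (congrArg (fun f : Module.End K V => f w) h2).symm
      rw [h1]
      exact Submodule.smul_mem_smul (cA_jac hN e hb) Submodule.mem_top
    | add y _ z _ hy hz =>
      rw [map_add]
      exact Submodule.add_mem _ hy hz

end Pool.Agent.H54.NA
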