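import Pool.Agent.H54.NA.Rad

/-!
# H54 NA, Wed: a normalised algebra is a matrix algebra, or the group is in the class
-/

set_option autoImplicit false

namespace Pool.Agent.H54.NA

open Pool.Agent.H98.FJ Module

variable {K V : Type} [Field K] [AddCommGroup V] [Module K V]

/-- a semisimple algebra with scalar centre over an algebraically closed field is a matrix algebra -/
theorem matrix_of_center [IsAlgClosed K] (A : Type) [Ring A] [Algebra K A] [FiniteDimensional K A] [Nontrivial A]
    (hc : ∀ z : A, (∀ a, a * z = z * a) → ∃ c : K, z = algebraMap K A c) (hJ : Ring.jacobson A = ⊥) :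
    ∃ s : ℕ, Nonempty (A ≃ₐ[K] Matrix (Fin s) (Fin s) K) := by
  have hart : IsArtinianRing A := IsArtinianRing.of_finite K A
  have hss : IsSemisimpleRing A := IsArtinianRing.isSemisimpleRing_iff_jacobson.2 hJ
  obtain ⟨m, d, hd, ⟨e⟩⟩ := IsSemisimpleRing.exists_algEquiv_pi_matrix_of_isAlgClosed K A
  rcases m with _ | _ | m
  · exfalso
    have h1 : e 1 = e 0 := Subsingleton.elim _ _
    exact one_ne_zero (e.injective h1)
  · refine ⟨d 0, ⟨e.trans (AlgEquiv.ofBijective (Pi.evalAlgHom K (fun i => Matrix (Fin (d i)) (Fin (d i)) K) 0) ?_)⟩⟩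
    constructor
    · intro f g hfg
      funext i
      have hi : i = 0 := Fin.fin_one_eq_zero i
      subst hi
      exact hfg
    · intro x
      refine ⟨fun i => (Fin.fin_one_eq_zero i) ▸ x, rfl⟩
  · exfalso
    let x : ∀ i, Matrix (Fin (d i)) (Fin (d i)) K := Pi.single 0 1
    have hx : ∀ a, a * e.symm x = e.symm x * a := by
      intro a
      apply e.injective
      rw [map_mul, map_mul, e.apply_symm_apply]
      funext i
      show e a i * x i = x i * e a i
      by_cases hi : i = 0
      · subst hi
        have : x 0 = 1 := Pi.single_eq_same _ _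
        rw [this, mul_one, one_mul]
      · have : x i = 0 := Pi.single_eq_of_ne hi _
        rw [this, mul_zero, zero_mul]
    obtain ⟨c, hc'⟩ := hc _ hx
    have h1 : x = algebraMap K _ c := by
      rw [← e.apply_symm_apply x, hc', e.commutes]
    have h2 : x 1 = 0 := Pi.single_eq_of_ne (by simp) _
    have h3 : x 0 = 1 := Pi.single_eq_same _ _
    have n0 := hd 0
    have n1 := hd 1
    have h4 : c = 0 := by
      have h5 : (algebraMap K (∀ i, Matrix (Fin (d i)) (Fin (d i)) K) c) 1 = 0 := by rw [← h1, h2]
      have h6 : algebraMap K (Matrix (Fin (d 1)) (Fin (d 1)) K) c = 0 := h5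
      have : Nontrivial (Matrix (Fin (d 1)) (Fin (d 1)) K) := inferInstance
      exact (map_eq_zero_iff _ (FaithfulSMul.algebraMap_injective K (Matrix (Fin (d 1)) (Fin (d 1)) K))).1 h6
    rw [h4, map_zero] at h1
    rw [h1] at h3
    have : (1 : Matrix (Fin (d 0)) (Fin (d 0)) K) = 0 := h3.symm
    exact one_ne_zero this

/-- a normalised proper algebra is a matrix algebra of smaller degree, or the group is in the class -/
theorem wed {C : (G : Type) → [Group G] → Prop} (hC : Inherits C) (hE : Extension C)
    (hS : ∀ (G : Type) [Group G], Group.IsSolvable G → C G) [IsAlgClosed K] [FiniteDimensional K V]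
    (hk : ∀ (W : Type) [AddCommGroup W] [Module K W] [FiniteDimensional K W], finrank K W < finrank K V → C (PV K W))
    {G : Type} [Group G] (j : G →* PV K V) (hj : Function.Injective j) (A : Subalgebra K (Module.End K V))
    (hN : Nm j A) (hA : A ≠ ⊤) :
    C G ∨ ∃ s < finrank K V, Nonempty (A ≃ₐ[K] Matrix (Fin s) (Fin s) K) := by
  by_cases hZ : A ⊓ Subalgebra.centralizer K (A : Set (Module.End K V)) = ⊥
  swap
  · left
    refine eig hC hE hS hk j hj _ (hN.inf hN.centralizer) ?_ hZ
    intro a ha b hb
    exact (Subalgebra.mem_centralizer_iff K).1 hb.2 a ha.1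
  by_cases hJ : Ring.jacobson A = ⊥
  swap
  · exact Or.inl (rad hC hE hS hk j hj A hN hJ)
  right
  have hnt : Nontrivial (Module.End K V) := by
    by_contra h
    rw [not_nontrivial_iff_subsingleton] at h
    apply hA
    rw [eq_top_iff]
    intro x _
    rw [Subsingleton.elim x 0]
    exact A.zero_mem
  have hfd : FiniteDimensional K A := inferInstanceAs (FiniteDimensional K (Subalgebra.toSubmodule A))
  obtain ⟨s, ⟨e⟩⟩ := matrix_of_center A (K := K) (fun z hz => by
    have h1 : z.1 ∈ A ⊓ Subalgebra.centralizer K (A : Set (Module.End K V)) := by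
      refine ⟨z.2, ?_⟩
      rw [SetLike.mem_coe, Subalgebra.mem_centralizer_iff]
      intro a ha
      exact congrArg Subtype.val (hz ⟨a, ha⟩)
    rw [hZ, Algebra.mem_bot] at h1
    obtain ⟨c, hc⟩ := h1
    exact ⟨c, Subtype.ext hc.symm⟩) hJ
  refine ⟨s, ?_, ⟨e⟩⟩
  have h1 : finrank K A = s * s := by
    rw [e.toLinearEquiv.finrank_eq, Module.finrank_matrix]
    simp
  have h2 : finrank K (Module.End K V) = finrank K V * finrank K V := Module.finrank_linearMap K K V V
  have h3 : finrank K A < finrank K (Module.End K V) := by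
    refine Submodule.finrank_lt (s := Subalgebra.toSubmodule A) ?_
    intro h
    exact hA (Algebra.toSubmodule_eq_top.1 h)
  rw [h1, h2] at h3
  exact Nat.mul_self_lt_mul_self_iff.1 h3

end Pool.Agent.H54.NA
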